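import Mathlib
import Pool.Agent.KS6_37.SA.Constr

/-!
Q1 asks whether graphs of arboricity at most `k` and large girth have `ζ = arb`. We determine the
largest strong arboricity of `k`-degenerate graphs of large girth: it is `k + 1` for every
`k ≥ 2`, however large the girth, and it is reached by bipartite graphs of arboricity `k`.
-/

set_option autoImplicit false

namespace Pool.Agent.Results.MP_8cd00c_co.Degenerate

open SimpleGraph Pool.Agent.KS6_37.SA

theorem result :
    (∀ (k : ℕ) (V : Type) [Finite V] (G : SimpleGraph V), Degenerate G k →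
      ((2 * k + 2 : ℕ) : ℕ∞) ≤ G.egirth → zeta G ≤ k + 1) ∧
    ∀ k g : ℕ, 2 ≤ k → ∃ (V : Type) (_ : Finite V) (G : SimpleGraph V),
      Degenerate G k ∧ G.Colorable 2 ∧ (g : ℕ∞) ≤ G.egirth ∧ arb G = k ∧ zeta G = k + 1 := by
  have h1 : ∀ (k : ℕ) (V : Type) [Finite V] (G : SimpleGraph V), Degenerate G k →
      ((2 * k + 2 : ℕ) : ℕ∞) ≤ G.egirth → zeta G ≤ k + 1 :=
    fun k V _ G hG hg => Nat.sInf_le (upper G k hG hg)
  refine ⟨h1, fun k g hk => ?_⟩
  obtain ⟨V, hV, G, hd, hb, hg, ha, hz⟩ := lower k (max g (2 * k + 2)) hk (by omega)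
  have hgk : ((2 * k + 2 : ℕ) : ℕ∞) ≤ G.egirth :=
    le_trans (by exact_mod_cast le_max_right g (2 * k + 2)) hg
  refine ⟨V, hV, G, hd, hb, le_trans (by exact_mod_cast le_max_left g (2 * k + 2)) hg, ?_, ?_⟩
  · refine le_antisymm (Nat.sInf_le (woody_of_degenerate G k hd)) ?_
    exact le_csInf ⟨k, woody_of_degenerate G k hd⟩ fun r ⟨c, hr, hc⟩ => ha r c hr hc
  · refine le_antisymm (h1 k V G hd hgk) ?_
    refine le_csInf ⟨k + 1, upper G k hd hgk⟩ fun r ⟨c, hr, hc⟩ => ?_
    by_contra hlt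
    exact hz c (fun e he => (hr e he).trans_le (by omega)) hc

end Pool.Agent.Results.MP_8cd00c_co.Degenerate
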